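import Mathlib
import Pool.Agent.P.MP_bc5e1d_co.Ext

namespace Pool.Agent.Results.MP_bc5e1d_co.AdditiveRange

open Pool.Agent.P.MP_bc5e1d_co

/-- The range of consecutive cycle lengths above the spectral threshold, up to an additive
constant: all lengths from `3` to `(3 - √5) n / 2 - K` are cycle lengths, and for every `n ≥ 10`
some graph above the threshold has no cycle longer than `(3 - √5) n / 2 + 4`. -/
theorem result : ∃ K : ℕ, ∀ n : ℕ,
    (∀ G : SimpleGraph (Fin n), √((n ^ 2 / 4 : ℕ) : ℝ) < specRad G →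
      ∀ l : ℕ, 3 ≤ l → (l : ℝ) ≤ (3 - √5) / 2 * n - K → Cyc G l) ∧
    (10 ≤ n → ∃ G : SimpleGraph (Fin n), √((n ^ 2 / 4 : ℕ) : ℝ) < specRad G ∧
      ∀ l : ℕ, Cyc G l → (l : ℝ) ≤ (3 - √5) / 2 * n + 4) :=
  main

end Pool.Agent.Results.MP_bc5e1d_co.AdditiveRange
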